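import Pool.Agent.TH563.V.FinalV
import Pool.Agent.N561.V.Defs2

/-!
# Project VS (helper561), job X2 (helper592): the hubs of weight zero as packages

The limit-level part of `hub_pkg`, `kidz`, `pz_zero`, `pz_succ` of the starting library.
-/

set_option autoImplicit false
set_option maxHeartbeats 1000000

namespace Pool.Agent.N592.VS

open Finset Filter Topology Metric
open Pool.Agent.W711.HT hiding XX
open Pool.Agent.TH563.UV
open Pool.Agent.TH563.V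
open Pool.Agent.TH563.Z hiding gd
open Pool.Agent.W85.HT hiding Rc_mono Rp_diff
open Pool.Agent.W293.HT
open Pool.Agent.TH219.J139 (Ub Ub_diff Ub_even)
open Pool.Agent.TH929.J29 (UN_diff)
open Pool.Agent.TH609.Z (exists_g valz shp hg_symm)
open Pool.Agent.N561
open scoped Real

/-- geometric meaning of the potential at a hub -/
theorem geos_hub {η r c C : ℝ} {s dl : ℂ → ℂ → ℂ} (hA : Adm η) (hS : SDZ η r c C s dl) :
    GEOS (η * Complex.I) s := by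
  obtain ⟨g, hg, h⟩ := exists_g hA hS
  refine ⟨g, hg, fun ψ φ h1 h2 => ?_⟩
  have hb := h ψ φ h1 h2
  have hh := hb.hg
  exact ⟨dl ψ φ, ⟨⟨⟨hh.sd.im1, hh.sd.im2⟩, ⟨hh.sd'.im1, hh.sd'.im2⟩, hh.den, hh.eq, shp hh,
    shp (hg_symm hh)⟩, (hS.sder1 ψ hb.m1 φ hb.m2).deriv, (hS.sder2 ψ hb.m1 φ hb.m2).deriv,
    valz hS hb.m1 hb.m2 hb.dr hb.r1 hb.r2⟩⟩

/-- products at the hub -/
def PH (η ε ρ' τ' κ x₀ δ ε₁ : ℝ) (S : ℂ → ℂ → ℂ) (j : ℕ) (X : ℕ → ℂ → ℂ) (Φ : ℂ → ℂ) : Prop :=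
  ∃ (PL : ℕ → ℂ → ℂ) (f : ℂ), 0 ≤ f.re ∧ HubZ η ε ρ' τ' κ x₀ δ ε₁ S j X PL f Φ

/-- a neighbour of the hub -/
def CH (η ε ρ' τ' κ x₀ δ ε₁ : ℝ) (S : ℂ → ℂ → ℂ) (Y : ℕ → ℂ → ℂ) (Φ : ℂ → ℂ) : Prop :=
  ∃ (YL : ℕ → ℂ → ℂ) (f₀ : ℂ), 0 ≤ f₀.re ∧ ChZ η ε ρ' τ' κ x₀ δ ε₁ S Y YL f₀ Φ

/-- a child of a small hub, growth (as `kidz`) -/
theorem kid_lim (hVF : S_VF) (hVT : S_VT) (hH : S_HALF) {ρs : ℝ}
    (hρs : 0 < ρs) (hbnd : BND ρs) {η ε ρ τ ρ' τ' κ c' : ℝ} {s' dl' : ℂ → ℂ → ℂ}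
    (hZ : KDZ η ε ρ τ ρ' τ' κ c' s' dl') {a₀ b₀ κe C : ℝ}
    (hE : ED a₀ b₀ κe c' C (Rz η (3 * ρ') (3 * τ')) (kerL ε) s') {x₀ δ ε₁ r₀ : ℝ}
    (hx₀ : 0 < x₀) (hδ : δ < c1 * min x₀ ρs ^ 2) (hε₁ : 0 < ε₁) (hr₀ : 0 < r₀)
    {κ₁ c₁ C₁ : ℝ} (hκ₁ : 0 < κ₁) (hc₁ : 0 < c₁) (hC₁ : 0 < C₁) :
    ∃ K : ℝ, 0 < K ∧ ∀ (t : ℕ) (X : ℕ → ℂ → ℂ) (F : ℂ → ℂ),
      GoodV a₀ b₀ κ₁ c₁ C₁ t X F →
      ∀ (b : Bool) (a : ℤ), (b = false → K ^ 2 ≤ ((t + 1 : ℕ) : ℝ) ^ 2 + (a : ℝ) ^ 2) →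
      ∃ (F' zs : ℂ → ℂ), CH η ε ρ' τ' κ x₀ δ ε₁ s' (stpb b a X) F' ∧
        ∀ φ ∈ Rz η (3 * ρ') (3 * τ'), zs φ ∈ Rc (3 * a₀) (3 * b₀) ∧ ‖zs φ‖ ≤ r₀ ∧
          (b = true → zs φ = 0) ∧
          (b = false → CPu a₀ b₀ r₀ (zs φ) ∧ Complex.I * a * zs φ / (2 * π) + Complex.I +
            deriv F (zs φ) + deriv (fun w => s' w φ) (zs φ) = 0) ∧
          F' φ = vt b a (zs φ) + F (zs φ) + s' (zs φ) φ ∧
          HasDerivAt F' (deriv (fun w => s' (zs φ) w) φ) φ := by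
  have ha₀ := hE.hρ.1
  have hb₀ := hE.hτ.1
  have hκe := hE.hκ.1
  have hρ' := hZ.hρ'.1
  have hτ' := hZ.hτ'.1
  obtain ⟨K, hK0, hcp⟩ := hVF a₀ b₀ κe c' C _ _ _ hE κ₁ c₁ C₁ hκ₁ hc₁ hC₁ r₀ (min ε₁ (κe / 16))
    hr₀ (lt_min hε₁ (by positivity))
  refine ⟨K, hK0, ?_⟩
  intro t X F hX b a hbig
  have hB : XB X (F 0).re := xb_gv ha₀ hb₀ hκ₁.le hc₁.le hC₁.le hX
  have hKK : Kz η (2 * ρ') (2 * τ') ⊆ Rz η (3 * ρ') (3 * τ') := by
    intro w hw
    rw [Kz_mem] at hw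
    exact ⟨by linarith [hw.1], by linarith [hw.2]⟩
  have hRK : Rz η (2 * ρ') (2 * τ') ⊆ Kz η (2 * ρ') (2 * τ') := by
    intro w hw
    rw [Kz_mem]
    exact ⟨hw.1.le, hw.2.le⟩
  have hY : stpb b a X = stp a (fun N ψ => Ub b N ψ * X N ψ) := by
    funext N ψ
    exact Pool.Agent.TH219.J139.stpb_eq b a X N ψ
  obtain ⟨X', hX'⟩ : ∃ X' : ℕ → ℂ → ℂ, X' = fun N ψ => Ub b N ψ * X N ψ := ⟨_, rfl⟩
  have hB' : XB X' (F 0).re := by rw [hX']; exact xb_ub b hB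
  have hXd : ∀ N, Differentiable ℂ (X' N) := by
    intro N
    rw [hX']
    exact (Ub_diff b N).mul (hX.an N)
  obtain ⟨st1, st2⟩ := Pool.Agent.W398.HT.t_STPE a X' hXd
  have hfar := child_far (a := a) hXd hB' hZ
  have hout := child_out (a := a) hXd hB' hρs hbnd hZ.hε.2 hx₀ hδ
  have hdec := child_dec (a := a) hXd hB' hH hZ.hε.1
  rw [hY, ← hX']
  have hsplit : ∀ N φ, stp a X' N φ = stL ε a X' N φ +
      ∑ d ∈ Ico (cut ε N) N, Rp N d φ / (Sd N d : ℂ) ^ 4 * Md a X' N d :=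
    fun N φ => stp_split hZ.hε.2 a X' hXd N φ
  have hstk := stL_stk hZ.hε.2 a hXd
  cases b with
  | false =>
    have hXX : X' = X := by
      rw [hX']
      funext N ψ
      show (1 : ℂ) * X N ψ = X N ψ
      rw [one_mul]
    rw [hXX] at hstk
    obtain ⟨F', zs, hF1, hz1, hF2, -, hF3, hmw⟩ := hcp t X F hX a (hbig rfl)
    refine ⟨F', zs, ⟨stL ε a X', F 0, hX.pos, ?_⟩, ?_⟩
    · refine ⟨st1, stL_diff ε a X', st2, stL_even ε a X', stp_per a X' hXd, stL_per ε a X', hF1,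
        fun φ hφ => (hF2 φ hφ).trans (min_le_left _ _), ?_, hfar, hout,
        ⟨Md a X', hsplit, hdec⟩⟩
      rw [hXX, hstk]
      exact mw_sub (hmw _ (Kz_compact _ _ _) hKK) hRK
    · intro φ hφ
      obtain ⟨p1, p2, p3, p4, p5⟩ := hF3 φ hφ
      refine ⟨Rc_mono (by linarith) (by linarith) p1.mem, p1.sm, fun h => absurd h (by simp),
        fun _ => ⟨p1, p3⟩, ?_, p5⟩
      rw [p4]
      simp [vt, qq]
  | true =>
    have hXX : X' = fun N ψ => UN N ψ * X N ψ := by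
      rw [hX']
      rfl
    rw [hXX] at hstk
    have h00 : (0 : ℂ) ∈ Rc (3 * a₀) (3 * b₀) := zero_mem_Rc (by linarith) (by linarith)
    have hf0 : (F 0 + π * Complex.I).re = (F 0).re := by
      rw [Complex.add_re]
      simp
    have hmw := hVT a₀ b₀ κe c' C _ _ _ hE κ₁ c₁ C₁ hκ₁ hc₁ hC₁ t X F hX a _ (Kz_compact _ _ _)
      hKK
    have hsd : DifferentiableOn ℂ (fun φ => s' 0 φ) (Rz η (3 * ρ') (3 * τ')) := by
      have h1 : DifferentiableOn ℂ (fun w : ℂ => ((0 : ℂ), w)) (Rz η (3 * ρ') (3 * τ')) :=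
        ((differentiable_const _).prodMk differentiable_id).differentiableOn
      exact hE.san.comp h1 (fun w hw => ⟨h00, hw⟩)
    refine ⟨fun φ => F 0 + π * Complex.I + s' 0 φ, fun _ => 0,
      ⟨stL ε a X', F 0 + π * Complex.I, by rw [hf0]; exact hX.pos, ?_⟩, ?_⟩
    · refine ⟨st1, stL_diff ε a X', st2, stL_even ε a X', stp_per a X' hXd, stL_per ε a X', ?_,
        ?_, ?_, ?_, ?_, ⟨Md a X', hsplit, ?_⟩⟩
      · exact (differentiableOn_const _).add hsd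
      · intro φ _
        have e : F 0 + π * Complex.I + s' 0 φ - (F 0 + π * Complex.I) - s' 0 φ = 0 := by ring
        rw [e, norm_zero]
        exact hε₁.le
      · rw [hXX, hstk]
        exact mw_sub hmw hRK
      · rw [hf0]
        exact hfar
      · rw [hf0]
        exact hout
      · rw [hf0]
        exact hdec
    · intro φ hφ
      refine ⟨h00, by rw [norm_zero]; exact hr₀.le,
        fun _ => rfl, fun h => absurd h (by simp), ?_, ?_⟩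
      · show F 0 + π * Complex.I + s' 0 φ = vt true a 0 + F 0 + s' 0 φ
        simp only [vt, if_true]
        ring
      · have h1 : HasDerivAt (fun w => s' 0 w) (deriv (fun w => s' 0 w) φ) φ :=
          (hsd.differentiableAt ((isOpen_Rz _ _ _).mem_nhds hφ)).hasDerivAt
        exact h1.const_add _

/-- the package of a small hub (as `hub_pkg`) -/
theorem pkg_lim (hVF : S_VF) (hVT : S_VT) (hHC : S_HC) (hR : S_REM) (hH : S_HALF) {ρs : ℝ}
    (hρs : 0 < ρs) (hbnd : BND ρs) {k : ℕ} (hk : 3 ≤ k)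
    (hgd : Pool.Agent.TH563.Z.gd (et k / 2) = π / k)
    (hineq : (k - 1 : ℝ) * (2 * bet) ≤ k * AA (et k) - et k) {ε ρ τ ρ' τ' κ c' : ℝ}
    {Sk dlk : ℂ → ℂ → ℂ} (hZ : KDZ (et k) ε ρ τ ρ' τ' κ c' Sk dlk) (hFG : FG2 (et k) ε ρ' τ' κ)
    {g : ℝ} (hg : 0 < g) :
    ∃ (U : Set ℂ) (P : ℕ → (ℕ → ℂ → ℂ) → (ℂ → ℂ) → Prop) (C : (ℕ → ℂ → ℂ) → (ℂ → ℂ) → Prop)
      (r₂ c₁ C₁ : ℝ), KPG k 0 (et k * Complex.I) g Sk U P C r₂ c₁ C₁ ∧
        RTG k 0 (et k * Complex.I) g U P := by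
  have hπ := Real.pi_pos
  have hbet := Pool.Agent.TH563.Z.J365.bet_pos
  obtain ⟨r, C', hS, hr1, hr2⟩ := hZ.sdz
  have hκ := hZ.hκ.1
  have hc' := hZ.hc
  have hC' := hS.hC
  have hε := hZ.hε
  have hρ := hZ.hρ.1
  have hρ1 := hZ.hρ.2
  have hτ := hZ.hτ.1
  have hτρ := hZ.hτ.2
  have hρ' := hZ.hρ'.1
  have hρ'1 := hZ.hρ'.2
  obtain ⟨hτ', hτρ', hτη⟩ := hZ.hτ'
  obtain ⟨j, hj⟩ : ∃ j : ℕ, k = j + 1 := ⟨k - 1, by omega⟩
  have hj1 : 1 ≤ j := by omega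
  have hj2 : 2 ≤ j := by omega
  have hkj : (k : ℝ) = (j : ℝ) + 1 := by rw [hj]; push_cast; ring
  have hk3 : (3 : ℝ) ≤ k := by exact_mod_cast hk
  have hk0 : (0 : ℝ) < k := by linarith
  have hj0 : (0 : ℝ) ≤ j := Nat.cast_nonneg j
  have hineq' : (j : ℝ) * (2 * bet) ≤ (j + 1) * AA (et k) - et k := by
    rw [hkj] at hineq
    have e1 : (j : ℝ) + 1 - 1 = j := by ring
    rwa [e1] at hineq
  -- the sizes
  obtain ⟨x₀, hx₀⟩ : ∃ x₀ : ℝ, x₀ = π * ε := ⟨_, rfl⟩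
  have hx₀0 : 0 < x₀ := by rw [hx₀]; exact mul_pos hπ hε.1
  have hx₀1 : x₀ < 2 * π * ε := by
    rw [hx₀]
    have := mul_pos hπ hε.1
    linarith
  have hc1 : 0 < c1 := by unfold c1; positivity
  obtain ⟨δ, hδ⟩ : ∃ δ : ℝ, δ = c1 * min x₀ ρs ^ 2 / 2 := ⟨_, rfl⟩
  have hm0 : 0 < c1 * min x₀ ρs ^ 2 := by
    have := lt_min hx₀0 hρs
    positivity
  have hδ0 : 0 < δ := by rw [hδ]; linarith
  have hδ1 : δ < c1 * min x₀ ρs ^ 2 := by rw [hδ]; linarith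
  obtain ⟨m, hm⟩ : ∃ m : ℝ, m = min (δ / 4) (min (κ / 8) (bet / 4)) := ⟨_, rfl⟩
  have hm0 : 0 < m := by
    rw [hm]; exact lt_min (by positivity) (lt_min (by positivity) (by positivity))
  have hm1 : m ≤ δ / 4 := by rw [hm]; exact min_le_left _ _
  have hm2 : m ≤ κ / 8 := by rw [hm]; exact (min_le_right _ _).trans (min_le_left _ _)
  have hm3 : m ≤ bet / 4 := by rw [hm]; exact (min_le_right _ _).trans (min_le_right _ _)
  obtain ⟨r₁, hr₁0, hr₁a, hr₁b, hr₁f⟩ : ∃ r₁ : ℝ, 0 < r₁ ∧ r₁ < τ' ∧ r₁ ≤ g ∧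
      r₁ ≤ m / (k * C' + 1) := by
    refine ⟨min (τ' / 2) (min g (m / (k * C' + 1))), ?_, ?_, ?_, ?_⟩
    · exact lt_min (by positivity) (lt_min hg (by positivity))
    · exact (min_le_left _ _).trans_lt (by linarith)
    · exact (min_le_right _ _).trans (min_le_left _ _)
    · exact (min_le_right _ _).trans (min_le_right _ _)
  have hr₁c : k * C' * r₁ + r₁ ≤ m := by
    rw [le_div_iff₀ (by positivity)] at hr₁f
    linarith
  have hr₁c' : ((j : ℝ) + 1) * C' * r₁ + r₁ ≤ m := by rw [← hkj]; exact hr₁c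
  obtain ⟨ε₂, r₂, C₁, hε₂, hr₂0, hr₂, hC₁, hcrit⟩ := hHC (et k) r c' C' Sk dlk hS ρ' τ' hτ' hτρ' hr2
    j hj1 (by rw [hgd, hj]) r₁ hr₁0 hr₁a
  obtain ⟨ε₁, hε₁0, hε₁z, hε₁b, hε₁c, hε₁d⟩ : ∃ ε₁ : ℝ, 0 < ε₁ ∧ ε₁ ≤ ε₂ ∧
      ε₁ ≤ c' * τ' ^ 2 / 16 ∧ ε₁ ≤ c' * r₁ * τ' / 16 ∧ ε₁ ≤ m / k := by
    refine ⟨min ε₂ (min (c' * τ' ^ 2 / 16) (min (c' * r₁ * τ' / 16) (m / k))), ?_, ?_, ?_, ?_, ?_⟩
    · exact lt_min hε₂ (lt_min (by positivity) (lt_min (by positivity) (by positivity)))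
    · exact min_le_left _ _
    · exact (min_le_right _ _).trans (min_le_left _ _)
    · exact (min_le_right _ _).trans ((min_le_right _ _).trans (min_le_left _ _))
    · exact (min_le_right _ _).trans ((min_le_right _ _).trans (min_le_right _ _))
  have hε₁e : k * ε₁ ≤ m := by
    rw [le_div_iff₀ hk0] at hε₁d
    linarith
  have hε₁j : j * ε₁ ≤ m := by
    have : (j : ℝ) * ε₁ ≤ k * ε₁ := mul_le_mul_of_nonneg_right (by linarith) hε₁0.le
    linarith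
  obtain ⟨τ1, hτ1, hrem⟩ := hub_rem (η := et k) (ρ' := ρ') (τ' := τ') (κ := κ) (ε₁ := ε₁) hR hH hρs
    hbnd hε hx₀0 hx₀1 hδ1 (s' := Sk) (e := δ / 4) (by positivity)
  obtain ⟨τ2, hτ2, hfar⟩ := hub_far (x₀ := x₀) (δ := δ) (ε₁ := ε₁) (s' := Sk) hFG
  obtain ⟨Ce, hE⟩ := ed_z hZ
  obtain ⟨aM, haM0, haM1, haM2, haM3, haM4, haM5, haM6⟩ : ∃ aM : ℝ, 0 < aM ∧
      aM ≤ r₂ / 4 ∧ aM ≤ ρ ∧ aM ≤ τ ∧ aM ≤ τ1 / 3 ∧ aM ≤ τ2 / 3 ∧ aM ≤ m / (6 * C') := by
    refine ⟨min (min (min (r₂ / 4) ρ) (min τ (τ1 / 3))) (min (τ2 / 3) (m / (6 * C'))),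
      ?_, ?_, ?_, ?_, ?_, ?_, ?_⟩
    · exact lt_min (lt_min (lt_min (by positivity) hρ) (lt_min hτ (by positivity)))
        (lt_min (by positivity) (by positivity))
    · exact (min_le_left _ _).trans ((min_le_left _ _).trans (min_le_left _ _))
    · exact (min_le_left _ _).trans ((min_le_left _ _).trans (min_le_right _ _))
    · exact (min_le_left _ _).trans ((min_le_right _ _).trans (min_le_left _ _))
    · exact (min_le_left _ _).trans ((min_le_right _ _).trans (min_le_right _ _))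
    · exact (min_le_right _ _).trans (min_le_left _ _)
    · exact (min_le_right _ _).trans (min_le_right _ _)
  refine ⟨Rz (et k) (3 * ρ') (3 * τ'), PH (et k) ε ρ' τ' κ x₀ δ ε₁ Sk,
    CH (et k) ε ρ' τ' κ x₀ δ ε₁ Sk, 3 * aM, c' / 2, C₁, ⟨by positivity, by positivity, hC₁,
    ?_, ?_, ?_, ?_⟩, ?_⟩
  · -- zero
    exact ⟨fun _ _ => 1, 0, le_rfl, hub_zero _ _ _ _ _ _ _ _ _⟩
  · -- succ
    rintro i X Y Φ Φ' ⟨PL, f, a0, a1⟩ ⟨YL, f₀, b0, b1⟩
    refine ⟨_, f + f₀, ?_, hub_succ hR hε hx₀0 hx₀1 a1 b1⟩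
    rw [Complex.add_re]
    exact add_nonneg a0 b0
  · -- the step
    intro a₀ b₀ hb0 hba ha3
    have ha0 : 0 < a₀ := hb0.trans_le hba
    have haM : a₀ ≤ aM := by linarith
    have hbM : b₀ ≤ aM := hba.trans haM
    obtain ⟨κe, hκe0, hκe1, hκe2, hκe3⟩ : ∃ κe : ℝ, 0 < κe ∧ κe ≤ κ ∧ κe < c' / 2 * a₀ ^ 2 ∧
        κe ≤ δ := by
      refine ⟨min κ (min (c' / 4 * a₀ ^ 2) δ), lt_min hκ (lt_min (by positivity) hδ0),
        min_le_left _ _, ?_, (min_le_right _ _).trans (min_le_right _ _)⟩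
      refine ((min_le_right _ _).trans (min_le_left _ _)).trans_lt ?_
      have : 0 < c' * a₀ ^ 2 := by positivity
      linarith
    have hE2 := ed_restrict hE ha0 (haM.trans haM2) hb0 (hbM.trans haM3) hba hκe0 hκe1 hκe2
    refine ⟨κe, hκe0, ?_⟩
    rintro P Φ ⟨PL, f, hf, hH1⟩
    have hkj' : k - 1 = j := by omega
    rw [hkj'] at hH1
    obtain ⟨F, zs, q1, q2, q3, q4, q5⟩ := hcrit f Φ hH1.Fan (fun φ hφ => (hH1.Fcl φ hφ).trans
      (mul_le_mul_of_nonneg_left hε₁z hj0))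
    have hHC : HCR (et k) ρ' τ' r₁ r₂ c' C₁ Sk Φ F zs :=
      ⟨q1, q2, q3, q4, fun ψ hψ => ⟨(q5 ψ hψ).1, (q5 ψ hψ).2.1⟩, fun ψ hψ => (q5 ψ hψ).2.2.1,
        fun ψ hψ => (q5 ψ hψ).2.2.2.1, fun ψ hψ => (q5 ψ hψ).2.2.2.2.1,
        fun ψ hψ => (q5 ψ hψ).2.2.2.2.2.1, fun ψ hψ => (q5 ψ hψ).2.2.2.2.2.2⟩
    have hfar' : ∀ᶠ N : ℕ in atTop, ∀ p : ℂ, |p.re| ≤ π → |p.im| ≤ min τ1 τ2 → ∀ x y : ℝ,
        ρ' ≤ |x| → |x| ≤ π → |y - et k| ≤ 3 * τ' →
        ‖PL N (x + y * Complex.I) * kerL ε N p (x + y * Complex.I)‖ ≤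
          Real.exp (N * (f.re + (j + 1) * AA (et k) - j * (κ / 2) - κ)) := by
      filter_upwards [hfar j P PL f Φ hH1] with N h1 p hp1 hp2
      exact h1 p hp1 (hp2.trans (min_le_right _ _))
    have hrem' : ∀ᶠ N : ℕ in atTop, ∀ p : ℂ, |p.re| ≤ π → |p.im| ≤ min τ1 τ2 →
        ‖upp (1 / N) fun φ => (P N φ * Pool.Agent.W711.HT.ker N φ p - PL N φ * kerL ε N p φ) *
          kr N φ‖ ≤ Real.exp (N * (f.re + j * (2 * bet - δ) + δ / 4)) := by
      filter_upwards [hrem j P PL f Φ hH1] with N h1 p hp1 hp2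
      exact h1 p hp1 (hp2.trans (min_le_left _ _))
    have ha14 : a₀ ≤ 1 / 4 := (haM.trans haM2).trans hρ1
    have hmab : C' * (3 * (a₀ + b₀)) ≤ m := by
      have e1 : a₀ ≤ m / (6 * C') := haM.trans haM6
      have e2 : b₀ ≤ m / (6 * C') := hbM.trans haM6
      rw [le_div_iff₀ (by positivity)] at e1 e2
      linarith
    have hbe : 3 * b₀ ≤ min τ1 τ2 := by
      refine le_min ?_ ?_
      · have := hbM.trans haM4
        linarith
      · have := hbM.trans haM5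
        linarith
    have hgv := hub_gv hZ hS hr2 hj2 hH1 hHC hr₂ hineq' hε₁j hr₁c' hm1 hm2 hm3 hf hδ0 ha0 hb0 hba
      (by have := haM.trans haM1; linarith) (haM.trans haM2) (hbM.trans haM3) hbe ha14 hmab
      (lt_min hτ1 hτ2) hE2.far hfar' hrem' (κ₂ := κe) (by linarith) (by linarith) (by linarith)
    have haM1' := haM.trans haM1
    have hbM1' := hbM.trans haM1
    have haM2' := haM.trans haM2
    have hbM3' := hbM.trans haM3
    refine ⟨F, zs, hgv, ?_⟩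
    intro ψ hψ
    have hψ2 : ψ ∈ Rc r₂ r₂ := Rc_mono (by linarith) (by linarith) hψ
    have hψr : ψ ∈ Rc r r := Rc_mono (by linarith) (by linarith) hψ
    obtain ⟨n1, n2⟩ := hHC.near ψ hψ2
    have hzU : zs ψ ∈ Rz (et k) (3 * ρ') (3 * τ') := Rz_mono (by linarith) (by linarith) n2
    have hzr : zs ψ ∈ Rz (et k) r r := Rz_mono hr2 (by linarith) hzU
    refine ⟨n1.trans hr₁b, hzU, ?_, ?_, hHC.der ψ hψ2⟩
    · have h5 : HasDerivAt (fun w => Sk ψ w) (deriv (fun w => Sk ψ w) (zs ψ)) (zs ψ) :=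
        (hS.sder2 ψ hψr (zs ψ) hzr).differentiableAt.hasDerivAt
      have h4 : HasDerivAt Φ (deriv Φ (zs ψ)) (zs ψ) :=
        (hH1.Fan.differentiableAt ((isOpen_Rz _ _ _).mem_nhds hzU)).hasDerivAt
      have h6 : HasDerivAt (qz fun w => Φ w + Sk ψ w)
          (Complex.I + (deriv Φ (zs ψ) + deriv (fun w => Sk ψ w) (zs ψ))) (zs ψ) := by
        unfold qz
        have h7 : HasDerivAt (fun w : ℂ => Complex.I * w) Complex.I (zs ψ) := by
          simpa using (hasDerivAt_id (zs ψ)).const_mul Complex.I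
        exact h7.add (h4.add h5)
      have h8 := hHC.crit ψ hψ2
      rw [h6.deriv] at h8
      rw [← h8]
      push_cast
      ring
    · rw [hHC.val ψ hψ2]
      simp only [qz, qq]
      push_cast
      ring
  · -- the children
    intro e r₀ κ₁ c C'' he0 he3 hr₀0 hκ₁0 hc0 hC0
    have heM : e ≤ aM := by linarith
    obtain ⟨κz, hκz0, hκz1, hκz2⟩ : ∃ κz : ℝ, 0 < κz ∧ κz ≤ κ ∧ κz < c' / 2 * e ^ 2 := by
      refine ⟨min κ (c' / 4 * e ^ 2), lt_min hκ (by positivity), min_le_left _ _, ?_⟩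
      have h1 : min κ (c' / 4 * e ^ 2) ≤ c' / 4 * e ^ 2 := min_le_right _ _
      have h2 : 0 < c' * e ^ 2 := by positivity
      linarith
    have hE2 := ed_restrict hE he0 (heM.trans haM2) he0 (heM.trans haM3) le_rfl hκz0 hκz1 hκz2
    exact kid_lim hVF hVT hH hρs hbnd hZ hE2 hx₀0 hδ1 hε₁0 hr₀0 hκ₁0 hc0 hC0
  · -- the last step
    rintro P Φ ⟨PL, f, -, hHub⟩
    obtain ⟨z, hz1, hz2, hz3, hz4, hz5⟩ := crit_z hS hτ' hτρ' hr2 (by omega : 1 ≤ k) hgd hr₁0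
      hr₁a hε₁b hε₁c hHub.Fan hHub.Fcl
    have hzm : z ∈ Rz (et k) (3 * ρ') (3 * τ') := Rz_mono (by linarith) (by linarith) hz2
    obtain ⟨V, hV⟩ : ∃ V : ℝ, V = (qz Φ z).re := ⟨_, rfl⟩
    have hVe : V + z.im = (Φ z).re := by
      rw [hV]
      unfold qz
      rw [Complex.add_re]
      simp
    have h00 : (0 : ℂ) ∈ Rc r r := zero_mem_Rc hS.hr.1 hS.hr.1
    have hzr : z ∈ Rz (et k) r r := Rz_mono hr2 (by linarith) hzm
    have hlow : f.re + k * AA (et k) - m - m ≤ (Φ z).re := by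
      have e1 := (Complex.abs_re_le_norm _).trans (hHub.Fcl z hzm)
      have e2 := (Complex.abs_re_le_norm _).trans (hS.lip 0 h00 z hzr)
      rw [norm_zero, zero_add, Complex.sub_re, Complex.ofReal_re] at e2
      have e3 : (Φ z - f - k * Sk 0 z).re = (Φ z).re - f.re - k * (Sk 0 z).re := by
        rw [Complex.sub_re, Complex.sub_re, ← Complex.ofReal_natCast, Complex.re_ofReal_mul]
      rw [e3] at e1
      have e4 : C' * ‖z - et k * Complex.I‖ ≤ C' * r₁ := mul_le_mul_of_nonneg_left hz1 hC'.le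
      have e5 := (abs_le.1 e1).1
      have e6 := (abs_le.1 e2).1
      have e7 : k * (AA (et k) - C' * r₁) ≤ k * (Sk 0 z).re :=
        mul_le_mul_of_nonneg_left (by linarith) hk0.le
      have e8 : k * C' * r₁ ≤ m := by linarith
      linarith
    have hzim : z.im ≤ et k + r₁ := by
      have h1 := (Complex.abs_im_le_norm _).trans hz1
      have h2 : (z - et k * Complex.I).im = z.im - et k := by simp
      rw [h2] at h1
      linarith [(abs_le.1 h1).2]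
    have hVlow : f.re + (k - 1) * (2 * bet) - m - m - r₁ ≤ V := by linarith
    refine ⟨z, hz1.trans hr₁b, hzm, ?_, ?_⟩
    · have h4 : HasDerivAt Φ (deriv Φ z) z :=
        (hHub.Fan.differentiableAt ((isOpen_Rz _ _ _).mem_nhds hzm)).hasDerivAt
      have h1 : HasDerivAt (qz Φ) (Complex.I + deriv Φ z) z := by
        unfold qz
        have h2 : HasDerivAt (fun w : ℂ => Complex.I * w) Complex.I z := by
          simpa using (hasDerivAt_id z).const_mul Complex.I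
        exact h2.add h4
      rw [h1.deriv] at hz3
      rw [← hz3]
      push_cast
      ring
    · have hlim := outer_lim (P := P) (PL := PL) (κ := min (κ / 4) (δ / 4)) hρ' hρ'1 hτ' hτη
        hHub.an hHub.anL hHub.perL hHub.Fan hHub.mw hz2 hz3 hz4 hz5
        (lt_min (by positivity) (by positivity))
        (by
          filter_upwards [hHub.far] with N h1 x hx hx'
          refine (h1 x z.im hx hx' ?_).trans (Real.exp_le_exp.2 ?_)
          · linarith [hz2.2]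
          · apply mul_le_mul_of_nonneg_left _ (Nat.cast_nonneg N)
            rw [← hV]
            have e1 := min_le_left (κ / 4) (δ / 4)
            have e2 : κ / 2 ≤ k * (κ / 2) := by nlinarith
            linarith)
        (by
          filter_upwards [hHub.rem (min (κ / 4) (δ / 4)) (lt_min (by positivity) (by positivity))]
            with N h1
          have h2 := h1 (fun _ => 1) 1 (differentiable_const _) (fun _ => rfl) (fun _ => rfl)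
            zero_le_one (fun x y _ _ _ _ => by simp)
          simp only [mul_one, one_mul] at h2
          refine h2.trans (Real.exp_le_exp.2 ?_)
          apply mul_le_mul_of_nonneg_left _ (Nat.cast_nonneg N)
          rw [← hV]
          have e1 := min_le_right (κ / 4) (δ / 4)
          have e2 : 2 * δ ≤ (k - 1) * δ := by nlinarith
          have e3 : 0 ≤ k * C' * r₁ := by positivity
          linarith)
      have hE0 : ∀ (N : ℕ) (φ : ℂ), Ea 0 N φ = 1 := by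
        intro N φ
        unfold Ea
        simp
      have hq : qq 0 Φ z = qz Φ z := by
        simp only [qz, qq]
        push_cast
        ring
      simp only [hE0, one_mul, hq]
      exact hlim

/-- the hubs of weight zero are settled, also as the root -/
theorem krk_hub {k : ℕ} (hk : 3 ≤ k) : KRK k 0 := by
  obtain ⟨hadm, hgd, hineq⟩ := Pool.Agent.TH596.J367.ineq k hk
  obtain ⟨r, c', C, S, dl, hS⟩ := Pool.Agent.TH822.J362.sdz (et k) hadm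
  obtain ⟨ε, -, hker⟩ := f_kerv (et k) hadm r c' C S dl hS
  obtain ⟨ρs, hρs, -, hbnd⟩ := Pool.Agent.W711.HT.f_BND
  refine ⟨et k * Complex.I, S, geos_hub hadm hS, fun g hg => ?_⟩
  obtain ⟨ρ, τ, ρ', τ', κ, hZ, -, -, hFG⟩ := hker 1 one_pos
  exact pkg_lim Pool.Agent.TH761.J1737.vf vt_mw Pool.Agent.TH554.J1743.hc
    Pool.Agent.TH653.J366.rem Pool.Agent.TH653.J366.half hρs hbnd hk hgd hineq hZ hFG hg

/-- the hubs of weight zero are settled -/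
theorem kok_hub {k : ℕ} (hk : 3 ≤ k) : KOK k 0 := by
  obtain ⟨z₀, S, hG, h⟩ := krk_hub hk
  refine ⟨z₀, S, hG, fun g hg => ?_⟩
  obtain ⟨U, P, C, r₂, c₁, C₁, h1, -⟩ := h g hg
  exact ⟨U, P, C, r₂, c₁, C₁, h1⟩

/-- job X2 -/
theorem hub3 : S_HUB3 := kok_hub le_rfl

end Pool.Agent.N592.VS
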