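import Pool.Agent.N402.VE.Edge
import Pool.Agent.N561.V.Mir

/-!
# Project VS (helper561), job M2 (helper592): the mirror image of the potential
-/

set_option autoImplicit false

namespace Pool.Agent.N592.VS

open Filter Topology Metric Set
open Pool.Agent.W711.HT hiding XX
open Pool.Agent.W709.VC (Dv)
open Pool.Agent.W864.AR (t1 t2)
open Pool.Agent.TH609.Z (ex)
open Pool.Agent.TH609.UV (fe)
open Pool.Agent.W583.HTP (half_re)
open Pool.Agent.N402.VE
open Pool.Agent.N561 (dst sg GG SGP SW SR HW EFW S_SGP S_EDGE S_MIRG GEOS mir2)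
open ComplexConjugate
open scoped Real

/-- the reflection -/
noncomputable def rf (z : ℂ) : ℂ := -conj z

lemma conj_two : conj (2 : ℂ) = 2 := map_ofNat (starRingEnd ℂ) 2

lemma rf_rf (z : ℂ) : rf (rf z) = z := by simp [rf]

lemma rf_re (z : ℂ) : (rf z).re = -z.re := by simp [rf]

lemma rf_im (z : ℂ) : (rf z).im = z.im := by simp [rf]

lemma norm_rf (z : ℂ) : ‖rf z‖ = ‖z‖ := by simp [rf]

lemma rf_sub (z w : ℂ) : rf z - rf w = rf (z - w) := by simp [rf]; ring

lemma cos_rf (z : ℂ) : Complex.cos (rf z) = conj (Complex.cos z) := by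
  rw [rf, Complex.cos_neg, ← Complex.cos_conj]

lemma mir2_eq (S : ℂ → ℂ → ℂ) (ψ φ : ℂ) : mir2 S ψ φ = conj (S (rf ψ) (rf φ)) := rfl

lemma deriv_m1 (S : ℂ → ℂ → ℂ) (ψ φ : ℂ) :
    deriv (fun w => mir2 S w φ) ψ = -conj (deriv (fun w => S w (rf φ)) (rf ψ)) := by
  have e : (fun w => mir2 S w φ) = conj ∘ (fun v => S (-v) (rf φ)) ∘ conj := by
    funext w
    rfl
  rw [e, deriv_conj_conj]
  show conj (deriv (fun v => S (-v) (rf φ)) (conj ψ)) = _
  rw [deriv_comp_neg (fun u => S u (rf φ))]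
  simp [rf]

lemma deriv_m2 (S : ℂ → ℂ → ℂ) (ψ φ : ℂ) :
    deriv (fun w => mir2 S ψ w) φ = -conj (deriv (fun w => S (rf ψ) w) (rf φ)) := by
  have e : (fun w => mir2 S ψ w) = conj ∘ (fun v => S (rf ψ) (-v)) ∘ conj := by
    funext w
    rfl
  rw [e, deriv_conj_conj]
  show conj (deriv (fun v => S (rf ψ) (-v)) (conj φ)) = _
  rw [deriv_comp_neg (fun u => S (rf ψ) u)]
  simp [rf]

/-- the imaginary part of `Lg` is less than `π` -/
lemma Lg_lt {ψ ψ' u : ℂ} (h : HW ψ ψ' u) : (Lg u ψ).im < π := by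
  obtain ⟨P, -, -, -, -, hc⟩ := h.sr
  obtain ⟨pa, pb, pc, ps, pa', pb', pc', ps'⟩ := P
  rw [← hc, Pool.Agent.W719.AR.Fl.cr]
  linarith

lemma Lg_mir {u z : ℂ} (h : (Lg u z).im < π) : Lg (conj u) (rf z) = -conj (Lg u z) := by
  unfold Lg at h ⊢
  obtain ⟨A, hA⟩ : ∃ A : ℂ, A = Complex.cos ((u - z) / 2) := ⟨_, rfl⟩
  obtain ⟨B, hB⟩ : ∃ B : ℂ, B = Complex.cos ((u + z) / 2) := ⟨_, rfl⟩
  rw [← hA, ← hB, Complex.log_im] at h
  have e1 : Complex.cos ((conj u - rf z) / 2) = conj B := by
    rw [hB, ← Complex.cos_conj]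
    congr 1
    simp [rf, conj_two]
  have e2 : Complex.cos ((conj u + rf z) / 2) = conj A := by
    rw [hA, ← Complex.cos_conj]
    congr 1
    simp [rf, conj_two]
    ring
  rw [e1, e2, ← hA, ← hB, ← map_div₀]
  have e3 : B / A = (A / B)⁻¹ := by rw [inv_div]
  rw [e3]
  have h1 : (A / B)⁻¹.arg ≠ π := by
    rw [Complex.arg_inv, if_neg h.ne]
    intro h2
    have := Complex.neg_pi_lt_arg (A / B)
    linarith
  rw [Complex.log_conj _ h1, Complex.log_inv _ h.ne, map_neg]

lemma hv_mir (ψ φ u : ℂ) : hv (rf ψ) (rf φ) (conj u) = hv ψ φ u := by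
  have hd := Pool.Agent.W505.VC.dsym
  have hc : ∀ z : ℂ, Dv (conj z) = -Dv z := hd.1
  have hi : ∀ z : ℂ, Dv z⁻¹ = -Dv z := hd.2.2
  have k0 : Dv (Complex.exp (Complex.I * conj u)) = Dv (Complex.exp (Complex.I * u)) := by
    have e : Complex.exp (Complex.I * conj u) = conj (Complex.exp (Complex.I * u))⁻¹ := by
      rw [← Complex.exp_neg, ← Complex.exp_conj]
      congr 1
      simp
    rw [e, hc, hi, neg_neg]
  have k1 : ∀ z : ℂ, Dv (-Complex.exp (Complex.I * (rf z - conj u))) =
      Dv (-Complex.exp (-(Complex.I * (u + z)))) := by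
    intro z
    have e : -Complex.exp (Complex.I * (rf z - conj u)) =
        conj (-Complex.exp (-(Complex.I * (u + z))))⁻¹ := by
      rw [inv_neg, ← Complex.exp_neg, map_neg, ← Complex.exp_conj]
      congr 2
      simp [rf]
      ring
    rw [e, hc, hi, neg_neg]
  have k2 : ∀ z : ℂ, Dv (-Complex.exp (-(Complex.I * (conj u + rf z)))) =
      Dv (-Complex.exp (Complex.I * (z - u))) := by
    intro z
    have e : -Complex.exp (-(Complex.I * (conj u + rf z))) =
        conj (-Complex.exp (Complex.I * (z - u)))⁻¹ := by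
      rw [inv_neg, ← Complex.exp_neg, map_neg, ← Complex.exp_conj]
      congr 2
      simp [rf]
      ring
    rw [e, hc, hi, neg_neg]
  unfold hv
  rw [k0, k1, k1, k2, k2]
  ring

lemma ex_conj (u : ℂ) : ex (conj u) = conj (ex u)⁻¹ := by
  rw [ex, ex, ← Complex.exp_neg, ← Complex.exp_conj]
  congr 1
  simp

lemma ex_rf (z : ℂ) : ex (rf z) = conj (ex z) := by
  rw [ex, ex, ← Complex.exp_conj]
  congr 1
  simp [rf]

/-- the conditions at one side of the mirror image -/
structure MS (X G : ℂ) : Prop where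
  im1 : 0 < ((X + G) / (1 + G)).im
  im2 : 0 < ((X - 1) * G / (1 + G)).im

lemma im_inv_conj {z : ℂ} (h : 0 < z.im) : 0 < (conj z⁻¹).im := by
  have hz : z ≠ 0 := by
    intro h0
    rw [h0] at h
    simp at h
  have h1 : 0 < Complex.normSq z := Complex.normSq_pos.2 hz
  rw [Complex.conj_im, Complex.inv_im, neg_div, neg_neg]
  exact div_pos h h1

lemma sw_mir {u z : ℂ} (h : MS (ex u) (ex z)) : SW (rf z) (conj u) := by
  have hX : ex u ≠ 0 := Complex.exp_ne_zero _
  have hG : ex z ≠ 0 := Complex.exp_ne_zero _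
  have n1 : 1 + ex z ≠ 0 := by
    intro h0
    have := h.im1
    rw [h0, div_zero] at this
    simp at this
  have n2 : ex u + ex z ≠ 0 := by
    intro h0
    have := h.im1
    rw [h0, zero_div] at this
    simp at this
  constructor
  · have e : t1 (ex (conj u)) (ex (rf z)) = conj ((ex u + ex z) / (1 + ex z))⁻¹ := by
      rw [ex_conj, ex_rf, t1]
      have e1 : ((ex u + ex z) / (1 + ex z))⁻¹ = (ex u)⁻¹ * (ex z + 1) / (1 + (ex u)⁻¹ * ex z) := by
        have n3 : 1 + (ex u)⁻¹ * ex z ≠ 0 := by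
          intro h0
          apply n2
          field_simp at h0
          linear_combination h0
        rw [inv_div, div_eq_div_iff n2 n3]
        field_simp
        ring
      rw [e1]
      simp only [map_div₀, map_mul, map_add, map_one]
    rw [e]
    exact im_inv_conj h.im1
  · have e : t2 (ex (conj u)) (ex (rf z)) = conj (-((ex u - 1) * ex z / (1 + ex z))) := by
      rw [ex_conj, ex_rf, t2]
      have e1 : -((ex u - 1) * ex z / (1 + ex z)) =
          ((ex u)⁻¹ - 1) * ex z / ((ex u)⁻¹ * (1 + ex z)) := by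
        field_simp
        ring
      rw [e1]
      simp only [map_div₀, map_mul, map_add, map_sub, map_one]
    rw [e, Complex.conj_im, Complex.neg_im, neg_neg]
    exact h.im2

/-! ### The base point -/

section
variable {t : ℂ} (h : Pt t)
include h

lemma nsq : 0 < Complex.normSq (1 - Complex.cos t * Complex.I) := Complex.normSq_pos.2 (nB h)

lemma X_im : 0 < ((1 + Complex.cos t * Complex.I) / (1 - Complex.cos t * Complex.I)).im := by
  rw [Complex.div_im, ← sub_div]
  apply div_pos _ (nsq h)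
  have := c_pos h
  have e1 : (1 + Complex.cos t * Complex.I).im = (Complex.cos t).re := by simp
  have e2 : (1 + Complex.cos t * Complex.I).re = 1 - (Complex.cos t).im := by simp; ring
  have e3 : (1 - Complex.cos t * Complex.I).im = -(Complex.cos t).re := by simp
  have e4 : (1 - Complex.cos t * Complex.I).re = 1 + (Complex.cos t).im := by simp
  rw [e1, e2, e3, e4]
  nlinarith

lemma ms_zero : MS ((1 + Complex.cos t * Complex.I) / (1 - Complex.cos t * Complex.I)) (ex 0) := by
  have e0 : ex 0 = 1 := by simp [ex]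
  have hX := X_im h
  obtain ⟨X, hX'⟩ : ∃ X : ℂ, X = (1 + Complex.cos t * Complex.I) / (1 - Complex.cos t * Complex.I) :=
    ⟨_, rfl⟩
  rw [← hX'] at hX ⊢
  rw [e0]
  have e1 : (X + 1) / (1 + 1) = (X + 1) / ((2 : ℝ) : ℂ) := by push_cast; norm_num
  have e2 : (X - 1) * 1 / (1 + 1) = (X - 1) / ((2 : ℝ) : ℂ) := by push_cast; norm_num
  constructor
  · rw [e1, Complex.div_ofReal_im, Complex.add_im, Complex.one_im]
    linarith
  · rw [e2, Complex.div_ofReal_im, Complex.sub_im, Complex.one_im]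
    linarith

lemma ms_phi (hs : Real.exp t.im * Real.sin t.re < 1) :
    MS ((1 + Complex.cos t * Complex.I) / (1 - Complex.cos t * Complex.I)) (ex (2 * t)) := by
  obtain ⟨h1, h2, h3, h4⟩ := pos1 h
  have hc := c_re h
  have hc' := c_im h
  have hN := nsq h
  have n1 := nB h
  have n2 := c_ne h
  set e := Complex.exp (t * Complex.I) with he
  have he0 : e ≠ 0 := Complex.exp_ne_zero _
  have ei : Complex.exp (-t * Complex.I) = e⁻¹ := by rw [he, ← Complex.exp_neg]; congr 1; ring
  have eK : ex (2 * t) = e ^ 2 := by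
    rw [ex, he, ← Complex.exp_nat_mul]
    congr 1
    push_cast
    ring
  have k1 : 1 + e ^ 2 = 2 * e * Complex.cos t := by
    rw [Complex.cos, ei, ← he]
    field_simp
    ring
  have k3 : (1 + Complex.cos t * Complex.I) / (1 - Complex.cos t * Complex.I) - 1 =
      2 * Complex.cos t * Complex.I / (1 - Complex.cos t * Complex.I) := by
    field_simp
    ring
  have r1 : (t * Complex.I).re = -t.im := by simp
  have r2 : (t * Complex.I).im = t.re := by simp
  have s1 : e.re = Real.exp (-t.im) * Real.cos t.re := by rw [he, Complex.exp_re, r1, r2]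
  have s2 : e.im = Real.exp (-t.im) * Real.sin t.re := by rw [he, Complex.exp_im, r1, r2]
  have r3 : (-t * Complex.I).re = t.im := by simp
  have r4 : (-t * Complex.I).im = -t.re := by simp
  have s3 : (e⁻¹).re = Real.exp t.im * Real.cos t.re := by
    rw [← ei, Complex.exp_re, r3, r4, Real.cos_neg]
  have s4 : (e⁻¹).im = -(Real.exp t.im * Real.sin t.re) := by
    rw [← ei, Complex.exp_im, r3, r4, Real.sin_neg]
    ring
  have z1 : (1 - Complex.cos t * Complex.I).re = 1 - Real.sin t.re * Real.sinh t.im := by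
    simp [hc']
  have z2 : (1 - Complex.cos t * Complex.I).im = -(Real.cos t.re * Real.cosh t.im) := by
    simp [hc]
  have hcs : Real.cosh t.im + Real.sinh t.im = Real.exp t.im := Real.cosh_add_sinh _
  constructor
  · have e1 : ((1 + Complex.cos t * Complex.I) / (1 - Complex.cos t * Complex.I) + ex (2 * t)) /
        (1 + ex (2 * t)) = 1 + Complex.I * e⁻¹ / (1 - Complex.cos t * Complex.I) := by
      have n3 : 1 + e ^ 2 ≠ 0 := by
        rw [k1]
        exact mul_ne_zero (mul_ne_zero two_ne_zero he0) n2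
      have q1 : (1 + Complex.cos t * Complex.I) / (1 - Complex.cos t * Complex.I) + e ^ 2 =
          ((1 + Complex.cos t * Complex.I) / (1 - Complex.cos t * Complex.I) - 1) +
            (1 + e ^ 2) := by ring
      rw [eK, q1, add_div, div_self n3, k3, k1, add_comm]
      congr 1
      field_simp
    rw [e1, Complex.add_im, Complex.one_im, zero_add, Complex.div_im, ← sub_div]
    apply div_pos _ hN
    have w1 : (Complex.I * e⁻¹).im = Real.exp t.im * Real.cos t.re := by
      rw [← s3]; simp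
    have w2 : (Complex.I * e⁻¹).re = Real.exp t.im * Real.sin t.re := by
      have : (Complex.I * e⁻¹).re = -(e⁻¹).im := by simp
      rw [this, s4, neg_neg]
    rw [w1, w2, z1, z2]
    have key : Real.exp t.im * Real.cos t.re * (1 - Real.sin t.re * Real.sinh t.im) -
        Real.exp t.im * Real.sin t.re * -(Real.cos t.re * Real.cosh t.im) =
        Real.exp t.im * Real.cos t.re *
          (1 + Real.sin t.re * (Real.cosh t.im - Real.sinh t.im)) := by ring
    rw [key]
    have h5 : 0 < Real.cosh t.im - Real.sinh t.im := by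
      rw [Real.cosh_sub_sinh]
      exact Real.exp_pos _
    have h6 := mul_nonneg h2 h5.le
    have h7 := Real.exp_pos t.im
    positivity
  · have e1 : ((1 + Complex.cos t * Complex.I) / (1 - Complex.cos t * Complex.I) - 1) * ex (2 * t) /
        (1 + ex (2 * t)) = Complex.I * e / (1 - Complex.cos t * Complex.I) := by
      rw [eK, k3, k1]
      field_simp
    rw [e1, Complex.div_im, ← sub_div]
    apply div_pos _ hN
    have w1 : (Complex.I * e).im = Real.exp (-t.im) * Real.cos t.re := by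
      rw [← s1]; simp
    have w2 : (Complex.I * e).re = -(Real.exp (-t.im) * Real.sin t.re) := by
      rw [← s2]; simp
    rw [w1, w2, z1, z2]
    have key : Real.exp (-t.im) * Real.cos t.re * (1 - Real.sin t.re * Real.sinh t.im) -
        -(Real.exp (-t.im) * Real.sin t.re) * -(Real.cos t.re * Real.cosh t.im) =
        Real.exp (-t.im) * Real.cos t.re *
          (1 - (Real.cosh t.im + Real.sinh t.im) * Real.sin t.re) := by ring
    rw [key, hcs]
    have h7 := Real.exp_pos (-t.im)
    have h8 : 0 < 1 - Real.exp t.im * Real.sin t.re := by linarith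
    positivity

end

lemma cont_ms {f g : ℂ × ℂ → ℂ} {p : ℂ × ℂ} (hf : ContinuousAt f p) (hg : ContinuousAt g p)
    (h : MS (ex (f p)) (ex (g p))) : ∀ᶠ q in 𝓝 p, MS (ex (f q)) (ex (g q)) := by
  have n1 : 1 + ex (g p) ≠ 0 := by
    intro h0
    have := h.im1
    rw [h0, div_zero] at this
    simp at this
  have c1 : ContinuousAt (fun q : ℂ × ℂ => (ex (f q) + ex (g q)) / (1 + ex (g q))) p := by
    unfold ex
    apply ContinuousAt.div
    · fun_prop
    · fun_prop
    · exact n1
  have c2 : ContinuousAt (fun q : ℂ × ℂ => (ex (f q) - 1) * ex (g q) / (1 + ex (g q))) p := by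
    unfold ex
    apply ContinuousAt.div
    · fun_prop
    · fun_prop
    · exact n1
  filter_upwards [(Complex.continuous_im.continuousAt.comp c1).eventually_const_lt h.im1,
    (Complex.continuous_im.continuousAt.comp c2).eventually_const_lt h.im2] with q h1 h2
  exact ⟨h1, h2⟩

/-- job M2 -/
theorem mirg (hG : S_SGP) : S_MIRG := by
  intro φ₀ hφ₀ hre hs
  obtain ⟨g₁, hg₁, hE⟩ := edge hG φ₀ hφ₀ hre
  obtain ⟨r, c, C, hS⟩ := hG φ₀ hφ₀
  have hpi := Real.pi_gt_three
  have hr0 := hS.hr.1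
  obtain ⟨q1, q2, q3, q4⟩ := hφ₀
  have q1' := abs_lt.1 q1
  set t := φ₀ / 2 with ht
  have htp : Pt t := by
    refine ⟨?_, ?_, ?_⟩
    · rw [ht, half_re]; linarith
    · rw [ht, half_re]; linarith
    · rw [ht, half_im]; linarith
  have hφt : φ₀ = 2 * t := by rw [ht]; ring
  have hst : Real.exp t.im * Real.sin t.re < 1 := by
    rw [ht, half_im, half_re]; exact hs
  have m0 : (0 : ℂ) ∈ Rc r r := by
    constructor <;> simpa using hr0
  have mφ : φ₀ ∈ ball φ₀ r := mem_ball_self hr0
  have hbd : dst 0 φ₀ = 1 / π * Complex.arctan (Complex.cos t) := by rw [dst_zero]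
  have hX : ex (2 * π * dst 0 φ₀) =
      (1 + Complex.cos t * Complex.I) / (1 - Complex.cos t * Complex.I) := by
    rw [hbd]; exact ex_arctan htp
  have hopen : Rc r r ×ˢ ball φ₀ r ∈ 𝓝 ((0 : ℂ), φ₀) :=
    ((Rc_open r r).prod isOpen_ball).mem_nhds ⟨m0, mφ⟩
  have hdc : ContinuousAt (fun p : ℂ × ℂ => dst p.1 p.2) ((0 : ℂ), φ₀) :=
    (hS.dan.differentiableAt hopen).continuousAt
  have huc : ContinuousAt (fun p : ℂ × ℂ => 2 * π * dst p.1 p.2) ((0 : ℂ), φ₀) :=
    continuousAt_const.mul hdc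
  have c1 : ContinuousAt (fun p : ℂ × ℂ => p.1) ((0 : ℂ), φ₀) := continuousAt_fst
  have c2 : ContinuousAt (fun p : ℂ × ℂ => p.2) ((0 : ℂ), φ₀) := continuousAt_snd
  have v1 := cont_ms huc c1 (by
    simp only
    rw [hX]
    exact ms_zero htp)
  have v2 := cont_ms huc c2 (by
    simp only
    rw [hX, hφt]
    exact ms_phi htp hst)
  obtain ⟨ε, hε, hb⟩ := Metric.eventually_nhds_iff.1 (v1.and v2)
  refine ⟨min (min g₁ (ε / 2)) (1 / 10), lt_min (lt_min hg₁ (by linarith)) (by norm_num),
    fun ψ φ n1 n2 => ?_⟩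
  have n1' : ‖rf ψ‖ ≤ min (min g₁ (ε / 2)) (1 / 10) := by rw [norm_rf]; exact n1
  have n2' : ‖rf φ - φ₀‖ ≤ min (min g₁ (ε / 2)) (1 / 10) := by
    have : rf φ - φ₀ = rf (φ - rf φ₀) := by rw [← rf_sub, rf_rf]
    rw [this, norm_rf]
    exact n2
  have a1 := n1'.trans ((min_le_left _ _).trans (min_le_left _ _))
  have a2 := n2'.trans ((min_le_left _ _).trans (min_le_left _ _))
  have b1 := n1'.trans ((min_le_left _ _).trans (min_le_right _ _))
  have b2 := n2'.trans ((min_le_left _ _).trans (min_le_right _ _))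
  have e1 := n1'.trans (min_le_right _ _)
  have e2 := n2'.trans (min_le_right _ _)
  have hef := hE (rf ψ) (rf φ) a1 a2
  have hd : dist (rf ψ, rf φ) ((0 : ℂ), φ₀) < ε := by
    rw [Prod.dist_eq]
    simp only [dist_eq_norm, sub_zero]
    rw [max_lt_iff]
    exact ⟨by linarith, by linarith⟩
  obtain ⟨k1, k2⟩ := hb hd
  simp only at k1 k2
  have hw0 := hef.hg
  obtain ⟨u, hu⟩ : ∃ u : ℂ, u = 2 * π * dst (rf ψ) (rf φ) := ⟨_, rfl⟩
  have huc' : 2 * π * conj (dst (rf ψ) (rf φ)) = conj u := by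
    rw [hu]
    simp [conj_two]
  have hd1 := hef.d1
  have hd2 := hef.d2
  have hval := hef.val
  rw [← hu] at k1 k2 hw0 hd1 hd2 hval
  have s1 := sw_mir k1
  have s2 := sw_mir k2
  rw [rf_rf] at s1 s2
  have l1 := Lg_mir (Lg_lt hw0)
  have hw0' : HW (rf φ) (rf ψ) u := ⟨hw0.sd', hw0.sd, by rw [add_right_comm]; exact hw0.den,
    by rw [hw0.eq, mul_comm, add_right_comm], hw0.sr', hw0.sr⟩
  have l2 := Lg_mir (Lg_lt hw0')
  rw [rf_rf] at l1 l2
  have cψ : Complex.cos ψ = conj (Complex.cos (rf ψ)) := by rw [← cos_rf, rf_rf]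
  have cφ : Complex.cos φ = conj (Complex.cos (rf φ)) := by rw [← cos_rf, rf_rf]
  have rψ : |ψ.re| < π := by
    have h1 := (Complex.abs_re_le_norm (rf ψ)).trans e1
    rw [rf_re, abs_neg] at h1
    linarith
  have rφ : |φ.re| < π := by
    have h1 := (Complex.abs_re_le_norm (rf φ - φ₀)).trans e2
    rw [Complex.sub_re, rf_re, abs_le] at h1
    rw [abs_lt]
    constructor <;> linarith [h1.1, h1.2]
  have hHE : HE ψ φ (conj u) := by
    refine ⟨s1, s2, ?_, ?_, rψ, rφ⟩
    · intro h0
      apply hw0.den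
      have h1 := congrArg conj h0
      rw [cψ, cφ] at h1
      simpa [conj_two] using h1
    · rw [Complex.cos_conj, hw0.eq, cψ, cφ]
      simp [conj_two]
  refine ⟨conj (dst (rf ψ) (rf φ)), ?_, ?_, ?_, ?_⟩
  · rw [huc']
    exact hw hHE
  · rw [deriv_m1, hd1, huc', l1]
    simp [conj_two]
  · rw [deriv_m2, hd2, huc', l2]
    simp [conj_two]
  · rw [huc', l1, l2, mir2_eq, Complex.conj_re]
    have e3 : hv ψ φ (conj u) = hv (rf ψ) (rf φ) u := by
      rw [← hv_mir (rf ψ) (rf φ) u, rf_rf, rf_rf]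
    rw [e3]
    have e4 : (-conj (Lg u (rf ψ))).im = (Lg u (rf ψ)).im := by simp
    have e5 : (-conj (Lg u (rf φ))).im = (Lg u (rf φ)).im := by simp
    rw [e4, e5]
    rw [rf_im, rf_im] at hval
    exact hval

end Pool.Agent.N592.VS
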